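import Pool.Agent.H61.KV.TN

/-!
# Kuiper board KV: two minimal faces meet
-/

set_option autoImplicit false

namespace Pool.Agent.H77.KV.B2N

open Pool.Agent.H59 Pool.Agent.H64.LB Pool.Agent.H61.KU Pool.Agent.H61.KV

theorem pf_B2N (h1 : T_P1N) (h2 : T_T3) (h3 : T_CNC) : T_B2N := by
  intro V _ _ _ m hm p p' hp hp'
  obtain ⟨-, α, hα, hα'⟩ := h1 V m hm p hp
  obtain ⟨-, β, hβ, hβ'⟩ := h1 V m hm p' hp'
  by_cases h : ∃ s t, α s = β t
  · obtain ⟨s, t, hst⟩ := h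
    refine ⟨m (α s), (h3 V m hm).2.2.2.1 _, hα' s, ?_⟩
    rw [hst]
    exact hβ' t
  · push Not at h
    exact (h2 α β h hα hβ).elim

end Pool.Agent.H77.KV.B2N
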